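import Pool.Agent.H3.RB.Asm

/-!
# Sharp threshold for the chromatic number of the random Borsuk graph
-/

set_option autoImplicit false

open scoped ENNReal Topology
open MeasureTheory Filter
open Pool.Agent.H3.RB

namespace Pool.Agent.Results.MP_4a5f01_pr.SharpThreshold

theorem result (d : ℕ) (hd : 2 ≤ d) :
    ∃ c : ℝ, 0 < c ∧ ∀ (ε : ℝ) (α : ℕ → ℝ), 0 < ε →
      ((∀ᶠ n : ℕ in atTop, (1 + ε) * c * (Real.log n / n) ^ ((1 : ℝ) / d) < α n) →
        Tendsto (fun n : ℕ => law d n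
          {x | ((d + 1 : ℕ) : ℕ∞) < (borsuk (α n) x).chromaticNumber}) atTop (𝓝 1)) ∧
      ((∀ᶠ n : ℕ in atTop, α n < (1 - ε) * c * (Real.log n / n) ^ ((1 : ℝ) / d)) →
        Tendsto (fun n : ℕ => law d n
          {x | ((d + 1 : ℕ) : ℕ∞) < (borsuk (α n) x).chromaticNumber}) atTop (𝓝 0)) :=
  p_RES d hd

end Pool.Agent.Results.MP_4a5f01_pr.SharpThreshold
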